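import Mathlib

set_option autoImplicit false

open MeasureTheory Filter Topology Real
open scoped ENNReal

namespace Pool.Agent.Results.MP_4eea03_an.RegularNotOptimal

/-- The Euclidean scalar product of the plane `ℝ × ℝ`. -/
def dot (x y : ℝ × ℝ) : ℝ := x.1 * y.1 + x.2 * y.2

/-- The class `𝒦₂`: nonempty, open, bounded, convex, centrally symmetric sets. -/
structure IsSymConvex (K : Set (ℝ × ℝ)) : Prop where
  nonempty : K.Nonempty
  isOpen : IsOpen K
  bounded : Bornology.IsBounded K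
  convex : Convex ℝ K
  symm : ∀ x ∈ K, -x ∈ K

/-- The polar norm `Φ_K°(x) = sup {x·y : y ∈ K}`. -/
noncomputable def polarNorm (K : Set (ℝ × ℝ)) (x : ℝ × ℝ) : ℝ := sSup ((fun y => dot x y) '' K)

/-- The polar set `K° = {x : Φ_K°(x) < 1}`. -/
def polarSet (K : Set (ℝ × ℝ)) : Set (ℝ × ℝ) := {x | polarNorm K x < 1}

/-- The divergence of a vector field. -/
noncomputable def div (φ : ℝ × ℝ → ℝ × ℝ) (x : ℝ × ℝ) : ℝ :=
  (fderiv ℝ φ x (1, 0)).1 + (fderiv ℝ φ x (0, 1)).2

/-- Admissible fields: `C¹`, compactly supported, with values in the closure of `K`. -/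
def IsAdm (K : Set (ℝ × ℝ)) (φ : ℝ × ℝ → ℝ × ℝ) : Prop :=
  ContDiff ℝ 1 φ ∧ HasCompactSupport φ ∧ ∀ x, φ x ∈ closure K

/-- The anisotropic perimeter `P_K(E)` in its distributional form: the supremum of `∫_E div φ` over
the admissible fields. -/
noncomputable def aPerimeter (K E : Set (ℝ × ℝ)) : ℝ≥0∞ :=
  ⨆ (φ : ℝ × ℝ → ℝ × ℝ) (_ : IsAdm K φ), ENNReal.ofReal (∫ x in E, div φ x)

/-- The anisotropic Cheeger constant `h_K(Ω)`. -/
noncomputable def cheeger (K Ω : Set (ℝ × ℝ)) : ℝ≥0∞ :=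
  ⨅ (E : Set (ℝ × ℝ)) (_ : MeasurableSet E) (_ : E ⊆ Ω) (_ : 0 < volume E),
    aPerimeter K E / volume E

/-- The functional `𝒥_Ω[K] = h_K(Ω) |K°|^{1/2}`. -/
noncomputable def J (Ω K : Set (ℝ × ℝ)) : ℝ≥0∞ :=
  cheeger K Ω * volume (polarSet K) ^ (1 / 2 : ℝ)

/-- The open unit disk. -/
def disk : Set (ℝ × ℝ) := {x | x.1 ^ 2 + x.2 ^ 2 < 1}

/-- Centrally symmetric convex polygons with exactly `n` sides: interiors of the convex hull of
`n` points in convex position. -/
def IsNGon (n : ℕ) (K : Set (ℝ × ℝ)) : Prop :=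
  IsSymConvex K ∧ ∃ S : Finset (ℝ × ℝ), S.card = n ∧
    (∀ s ∈ S, s ∉ convexHull ℝ ((S : Set (ℝ × ℝ)) \ {s})) ∧
    K = interior (convexHull ℝ (S : Set (ℝ × ℝ)))

/-- The regular `n`-gon circumscribed about the unit disk: the intersection of the half planes
`x·u_j < 1`, `u_j = (cos (2πj/n), sin (2πj/n))`. -/
def regularNgon (n : ℕ) : Set (ℝ × ℝ) :=
  {x | ∀ j : ℤ, dot x (cos (2 * π * j / n), sin (2 * π * j / n)) < 1}

theorem dot_le {x y : ℝ × ℝ} {r s : ℝ} (hr : 0 ≤ r) (hs : 0 ≤ s) (hx : x.1 ^ 2 + x.2 ^ 2 ≤ r ^ 2)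
    (hy : y.1 ^ 2 + y.2 ^ 2 ≤ s ^ 2) : dot x y ≤ r * s := by
  have h1 : (dot x y) ^ 2 ≤ (r * s) ^ 2 := by
    have h2 : (dot x y) ^ 2 ≤ (x.1 ^ 2 + x.2 ^ 2) * (y.1 ^ 2 + y.2 ^ 2) := by
      rw [dot]; nlinarith [sq_nonneg (x.1 * y.2 - x.2 * y.1)]
    refine h2.trans ?_
    rw [mul_pow]
    exact mul_le_mul hx hy (by positivity) (by positivity)
  exact le_of_sq_le_sq₀ h1 (mul_nonneg hr hs)
where
  le_of_sq_le_sq₀ {a b : ℝ} (h : a ^ 2 ≤ b ^ 2) (hb : 0 ≤ b) : a ≤ b := by
    exact (abs_le_of_sq_le_sq' h hb).2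

theorem volume_disk (r : ℝ) (hr : 0 ≤ r) :
    volume {x : ℝ × ℝ | x.1 ^ 2 + x.2 ^ 2 < r ^ 2} = ENNReal.ofReal (π * r ^ 2) := by
  have h1 := Complex.volume_preserving_equiv_real_prod
  have h2 : Complex.measurableEquivRealProd ⁻¹' {x : ℝ × ℝ | x.1 ^ 2 + x.2 ^ 2 < r ^ 2} =
      Metric.ball (0 : ℂ) r := by
    ext z
    rw [mem_ball_zero_iff, Set.mem_preimage, Set.mem_ofPred_eq, Complex.measurableEquivRealProd_apply]
    rw [← sq_lt_sq₀ (norm_nonneg z) hr, Complex.sq_norm, Complex.normSq_apply]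
    constructor <;> intro h <;> nlinarith
  rw [← h1.measure_preimage_equiv, h2, Complex.volume_ball]
  rw [ENNReal.ofReal_mul pi_pos.le, ENNReal.ofReal_pow hr, mul_comm]
  congr 1
  rw [← NNReal.coe_real_pi, ENNReal.ofReal_coe_nnreal]

/-- Points of the regular `n`-gon have modulus at most `1 / cos (π / n)`. -/
theorem regularNgon_bound {n : ℕ} (hn : 3 ≤ n) {y : ℝ × ℝ} (hy : y ∈ regularNgon n) :
    (y.1 ^ 2 + y.2 ^ 2) * cos (π / n) ^ 2 ≤ 1 := by
  have hn0 : (0 : ℝ) < n := by positivity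
  have hcos : 0 < cos (π / n) := by
    apply cos_pos_of_mem_Ioo
    constructor
    · have : 0 < π / n := by positivity
      linarith [pi_pos]
    · rw [div_lt_div_iff₀ hn0 two_pos]
      have : (3 : ℝ) ≤ n := by exact_mod_cast hn
      nlinarith [pi_pos]
  set z : ℂ := ⟨y.1, y.2⟩ with hz
  set r := ‖z‖ with hr
  set θ := z.arg with hθ
  have hr0 : 0 ≤ r := norm_nonneg z
  have h1 : r * cos θ = y.1 := Complex.norm_mul_cos_arg z
  have h2 : r * sin θ = y.2 := Complex.norm_mul_sin_arg z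
  set j : ℤ := round (θ * n / (2 * π)) with hj
  have h3 : |θ * n / (2 * π) - j| ≤ 1 / 2 := abs_sub_round _
  have h4 : |θ - 2 * π * j / n| ≤ π / n := by
    have e : θ - 2 * π * j / n = (θ * n / (2 * π) - j) * (2 * π / n) := by
      have := pi_pos
      field_simp
    rw [e, abs_mul, abs_of_pos (show 0 < 2 * π / n by positivity)]
    calc _ ≤ 1 / 2 * (2 * π / n) := mul_le_mul_of_nonneg_right h3 (by positivity)
      _ = π / n := by ring
  have h5 : cos (π / n) ≤ cos (θ - 2 * π * j / n) := by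
    rw [← cos_abs (θ - 2 * π * j / n)]
    apply cos_le_cos_of_nonneg_of_le_pi (abs_nonneg _) _ h4
    rw [div_le_iff₀ hn0]
    have : (3 : ℝ) ≤ n := by exact_mod_cast hn
    nlinarith [pi_pos]
  have h6 := hy j
  rw [dot] at h6
  simp only at h6
  rw [← h1, ← h2] at h6
  have h7 : r * cos (θ - 2 * π * j / n) < 1 := by
    rw [cos_sub]; linarith
  have h8 : r * cos (π / n) ≤ 1 := by nlinarith
  have h9 : y.1 ^ 2 + y.2 ^ 2 = r ^ 2 := by
    rw [← h1, ← h2]
    have := sin_sq_add_cos_sq θ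
    nlinarith
  rw [h9, ← mul_pow]
  exact pow_le_one₀ (mul_nonneg hr0 hcos.le) h8

theorem cos_pos_n {n : ℕ} (hn : 3 ≤ n) : 0 < cos (π / n) := by
  have hn0 : (0 : ℝ) < n := by positivity
  apply cos_pos_of_mem_Ioo
  constructor
  · have : 0 < π / n := by positivity
    linarith [pi_pos]
  · rw [div_lt_div_iff₀ hn0 two_pos]
    have : (3 : ℝ) ≤ n := by exact_mod_cast hn
    nlinarith [pi_pos]

/-- The polar of the regular `n`-gon contains the disk of radius `cos (π / n)`. -/
theorem volume_polar_regular {n : ℕ} (hn : 3 ≤ n) :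
    ENNReal.ofReal (π * cos (π / n) ^ 2) ≤ volume (polarSet (regularNgon n)) := by
  have hcos := cos_pos_n hn
  rw [← volume_disk _ hcos.le]
  refine measure_mono fun x hx => ?_
  have hx' : x.1 ^ 2 + x.2 ^ 2 < cos (π / n) ^ 2 := hx
  set ρ := √(x.1 ^ 2 + x.2 ^ 2) with hρ
  have hρ0 : 0 ≤ ρ := Real.sqrt_nonneg _
  have hρ2 : ρ ^ 2 = x.1 ^ 2 + x.2 ^ 2 := Real.sq_sqrt (by positivity)
  have hρc : ρ < cos (π / n) := by
    apply lt_of_pow_lt_pow_left₀ 2 hcos.le
    rw [hρ2]; exact hx'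
  show polarNorm (regularNgon n) x < 1
  have h1 : polarNorm (regularNgon n) x ≤ ρ * (1 / cos (π / n)) := by
    apply Real.sSup_le
    · rintro _ ⟨y, hy, rfl⟩
      apply dot_le hρ0 (by positivity) hρ2.ge
      have := regularNgon_bound hn hy
      rw [one_div, inv_pow, ← one_div, le_div_iff₀ (by positivity)]
      exact this
    · positivity
  refine h1.trans_lt ?_
  rw [mul_one_div, div_lt_one hcos]
  exact hρc

/-- The disk is contained in the closure of the regular `n`-gon. -/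
theorem disk_subset_regular {n : ℕ} {x : ℝ × ℝ} (hx : x.1 ^ 2 + x.2 ^ 2 ≤ 1) :
    x ∈ closure (regularNgon n) := by
  have h1 : ∀ k : ℕ, (1 - 1 / ((k : ℝ) + 1)) • x ∈ regularNgon n := by
    intro k j
    have ht : 1 - 1 / ((k : ℝ) + 1) < 1 := by
      have : 0 < 1 / ((k : ℝ) + 1) := by positivity
      linarith
    have ht0 : 0 ≤ 1 - 1 / ((k : ℝ) + 1) := by
      rw [sub_nonneg, div_le_one (by positivity)]
      linarith [(Nat.cast_nonneg k : (0 : ℝ) ≤ k)]
    have h2 : dot x (cos (2 * π * j / n), sin (2 * π * j / n)) ≤ 1 * 1 := by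
      apply dot_le zero_le_one zero_le_one
      · simpa using hx
      · simp [cos_sq_add_sin_sq]
    have h3 : dot ((1 - 1 / ((k : ℝ) + 1)) • x) (cos (2 * π * j / n), sin (2 * π * j / n)) =
        (1 - 1 / ((k : ℝ) + 1)) * dot x (cos (2 * π * j / n), sin (2 * π * j / n)) := by
      simp [dot]; ring
    rw [h3]
    nlinarith
  refine mem_closure_of_tendsto (f := fun k : ℕ => (1 - 1 / ((k : ℝ) + 1)) • x) (b := atTop) ?_
    (Eventually.of_forall h1)
  have h2 : Tendsto (fun k : ℕ => 1 - 1 / ((k : ℝ) + 1)) atTop (𝓝 (1 - 0)) :=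
    tendsto_const_nhds.sub tendsto_one_div_add_atTop_nhds_zero_nat
  have h3 := h2.smul_const x
  simpa using h3

/-! ### Lower bound for the Cheeger constant -/

/-- The cut-off radial field. -/
noncomputable def field (b : ℝ) (x : ℝ × ℝ) : ℝ × ℝ :=
  (Real.smoothTransition ((b ^ 2 - (x.1 ^ 2 + x.2 ^ 2)) / (b ^ 2 - 1)) / b) • x

theorem field_contDiff {b : ℝ} : ContDiff ℝ 1 (field b) := by
  have h0 : ContDiff ℝ 1 (fun x : ℝ × ℝ => (b ^ 2 - (x.1 ^ 2 + x.2 ^ 2)) / (b ^ 2 - 1)) :=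
    (contDiff_const.sub ((contDiff_fst.pow 2).add (contDiff_snd.pow 2))).div_const _
  have h1 : ContDiff ℝ 1 (fun x : ℝ × ℝ =>
      Real.smoothTransition ((b ^ 2 - (x.1 ^ 2 + x.2 ^ 2)) / (b ^ 2 - 1)) / b) :=
    ((Real.smoothTransition.contDiff (n := 1)).comp h0).div_const b
  exact h1.smul contDiff_id

theorem field_zero {b : ℝ} (hb : 1 < b) {x : ℝ × ℝ} (hx : b ^ 2 ≤ x.1 ^ 2 + x.2 ^ 2) :
    field b x = 0 := by
  have h1 : (b ^ 2 - (x.1 ^ 2 + x.2 ^ 2)) / (b ^ 2 - 1) ≤ 0 :=
    div_nonpos_of_nonpos_of_nonneg (by linarith) (by nlinarith)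
  simp [field, Real.smoothTransition.zero_of_nonpos h1]

theorem field_one {b : ℝ} (hb : 1 < b) {x : ℝ × ℝ} (hx : x.1 ^ 2 + x.2 ^ 2 < 1) :
    field b x = (1 / b) • x := by
  have h0 : 0 < b ^ 2 - 1 := by nlinarith
  have h1 : 1 ≤ (b ^ 2 - (x.1 ^ 2 + x.2 ^ 2)) / (b ^ 2 - 1) := by
    rw [le_div_iff₀ h0]; linarith
  simp [field, Real.smoothTransition.one_of_one_le h1]

theorem isOpen_disk : IsOpen disk := by
  have h : Continuous fun x : ℝ × ℝ => x.1 ^ 2 + x.2 ^ 2 := by fun_prop
  exact isOpen_lt h continuous_const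

theorem div_field {b : ℝ} (hb : 1 < b) {x : ℝ × ℝ} (hx : x ∈ disk) : div (field b) x = 2 / b := by
  have h1 : field b =ᶠ[𝓝 x] fun y => (1 / b) • y := by
    filter_upwards [isOpen_disk.mem_nhds hx] with y hy
    exact field_one hb hy
  rw [div, h1.fderiv_eq]
  have h2 : fderiv ℝ (fun y : ℝ × ℝ => (1 / b) • y) x = (1 / b) • ContinuousLinearMap.id ℝ (ℝ × ℝ) :=
    (HasFDerivAt.const_smul (hasFDerivAt_id (𝕜 := ℝ) x) (1 / b)).fderiv
  rw [h2]
  simp
  ring

theorem field_adm {b : ℝ} (hb : 1 < b) {K : Set (ℝ × ℝ)}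
    (hK : ∀ x : ℝ × ℝ, x.1 ^ 2 + x.2 ^ 2 ≤ 1 → x ∈ closure K) : IsAdm K (field b) := by
  have hb0 : 0 < b := by linarith
  refine ⟨field_contDiff, ?_, fun x => hK _ ?_⟩
  · refine HasCompactSupport.intro (isCompact_closedBall (0 : ℝ × ℝ) b) fun x hx => ?_
    apply field_zero hb
    rw [mem_closedBall_zero_iff, not_le, Prod.norm_def, lt_max_iff] at hx
    rcases hx with h | h
    · have : b ^ 2 < ‖x.1‖ ^ 2 := by gcongr
      rw [Real.norm_eq_abs, sq_abs] at this
      nlinarith [sq_nonneg x.2]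
    · have : b ^ 2 < ‖x.2‖ ^ 2 := by gcongr
      rw [Real.norm_eq_abs, sq_abs] at this
      nlinarith [sq_nonneg x.1]
  · rcases le_total (b ^ 2) (x.1 ^ 2 + x.2 ^ 2) with h | h
    · rw [field_zero hb h]; simp
    · set t := Real.smoothTransition ((b ^ 2 - (x.1 ^ 2 + x.2 ^ 2)) / (b ^ 2 - 1)) with ht
      have ht0 : 0 ≤ t := Real.smoothTransition.nonneg _
      have ht1 : t ≤ 1 := Real.smoothTransition.le_one _
      have e : (field b x).1 ^ 2 + (field b x).2 ^ 2 = (t / b) ^ 2 * (x.1 ^ 2 + x.2 ^ 2) := by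
        simp only [field, Prod.smul_fst, Prod.smul_snd, smul_eq_mul]
        rw [← ht]; ring
      rw [e, div_pow]
      have h2 : t ^ 2 ≤ 1 := pow_le_one₀ ht0 ht1
      rw [div_mul_eq_mul_div, div_le_one (by positivity)]
      nlinarith [sq_nonneg x.1, sq_nonneg x.2, sq_nonneg b]

/-- If the closed unit disk is contained in the closure of `K`, then `h_K(B) ≥ 2`. -/
theorem two_le_cheeger {K : Set (ℝ × ℝ)}
    (hK : ∀ x : ℝ × ℝ, x.1 ^ 2 + x.2 ^ 2 ≤ 1 → x ∈ closure K) : 2 ≤ cheeger K disk := by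
  refine le_iInf fun E => le_iInf fun hE => le_iInf fun hEd => le_iInf fun hE0 => ?_
  have hEfin : volume E ≠ ∞ := by
    have h1 : volume E ≤ volume {x : ℝ × ℝ | x.1 ^ 2 + x.2 ^ 2 < (1 : ℝ) ^ 2} := by
      refine measure_mono fun x hx => ?_
      have := hEd hx
      simpa [disk] using this
    rw [volume_disk 1 zero_le_one] at h1
    exact (h1.trans_lt ENNReal.ofReal_lt_top).ne
  rw [ENNReal.le_div_iff_mul_le (Or.inl hE0.ne') (Or.inl hEfin)]
  have key : ∀ k : ℕ, ENNReal.ofReal (2 / (1 + 1 / ((k : ℝ) + 1))) * volume E ≤ aPerimeter K E := by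
    intro k
    have hb : 1 < 1 + 1 / ((k : ℝ) + 1) := by
      have : 0 < 1 / ((k : ℝ) + 1) := by positivity
      linarith
    set b := 1 + 1 / ((k : ℝ) + 1) with hbdef
    have h1 : ∫ x in E, div (field b) x = 2 / b * volume.real E := by
      rw [setIntegral_congr_fun (g := fun _ => 2 / b) hE (fun x hx => div_field hb (hEd hx))]
      rw [setIntegral_const, smul_eq_mul, mul_comm]
    refine le_trans ?_ (le_iSup₂_of_le (field b) (field_adm hb hK) le_rfl)
    rw [h1, ENNReal.ofReal_mul (by positivity), Measure.real, ENNReal.ofReal_toReal hEfin]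
  have hlim : Tendsto (fun k : ℕ => ENNReal.ofReal (2 / (1 + 1 / ((k : ℝ) + 1))) * volume E) atTop
      (𝓝 (ENNReal.ofReal (2 / (1 + 0)) * volume E)) := by
    refine ENNReal.Tendsto.mul_const ?_ (Or.inr hEfin)
    refine (ENNReal.continuous_ofReal.tendsto _).comp ?_
    exact tendsto_const_nhds.div (tendsto_const_nhds.add tendsto_one_div_add_atTop_nhds_zero_nat)
      (by norm_num)
  have h2 := le_of_tendsto' hlim key
  simpa using h2

/-- Lower bound for the regular polygon. -/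
theorem J_regular {n : ℕ} (hn : 3 ≤ n) :
    ENNReal.ofReal (2 * √π * cos (π / n)) ≤ J disk (regularNgon n) := by
  have h1 := two_le_cheeger (K := regularNgon n) (fun x hx => disk_subset_regular hx)
  have h2 := volume_polar_regular hn
  have h3 : ENNReal.ofReal (2 * √π * cos (π / n)) =
      2 * (ENNReal.ofReal (π * cos (π / n) ^ 2)) ^ (1 / 2 : ℝ) := by
    have hcos := cos_pos_n hn
    rw [ENNReal.ofReal_rpow_of_nonneg (by positivity) (by norm_num), ← Real.sqrt_eq_rpow,
      Real.sqrt_mul pi_pos.le, Real.sqrt_sq hcos.le, mul_assoc, ENNReal.ofReal_mul two_pos.le]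
    simp
  rw [h3, J]
  exact mul_le_mul' h1 (ENNReal.rpow_le_rpow h2 (by norm_num))

/-! ### Upper bound: a test set -/

/-- The height function of the truncated disk. -/
noncomputable def g (a x : ℝ) : ℝ := min a √(1 - x ^ 2)

/-- The truncated disk `{x² + y² < 1, |x| < a, |y| < a}`. -/
def tdisk (a : ℝ) : Set (ℝ × ℝ) := {p | p.1 ^ 2 + p.2 ^ 2 < 1 ∧ |p.1| < a ∧ |p.2| < a}

theorem isOpen_tdisk (a : ℝ) : IsOpen (tdisk a) := by
  have h1 : Continuous fun x : ℝ × ℝ => x.1 ^ 2 + x.2 ^ 2 := by fun_prop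
  have h2 : Continuous fun x : ℝ × ℝ => |x.1| := by fun_prop
  have h3 : Continuous fun x : ℝ × ℝ => |x.2| := by fun_prop
  exact (isOpen_lt h1 continuous_const).inter
    ((isOpen_lt h2 continuous_const).inter (isOpen_lt h3 continuous_const))

theorem tdisk_slice {a : ℝ} (x : ℝ) :
    Prod.mk x ⁻¹' tdisk a = if |x| < a then Set.Ioo (-g a x) (g a x) else ∅ := by
  ext y
  split_ifs with h
  · rw [Set.mem_preimage, Set.mem_Ioo, ← abs_lt, g, lt_min_iff, Real.lt_sqrt (abs_nonneg y), sq_abs]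
    constructor
    · rintro ⟨h1, _, h3⟩
      exact ⟨h3, by simp only at h1; linarith⟩
    · rintro ⟨h1, h2⟩
      exact ⟨by simp only; linarith, h, h1⟩
  · constructor
    · rintro ⟨_, h2, _⟩; exact absurd h2 h
    · intro h2; exact h2.elim

theorem g_nonneg {a : ℝ} (ha : 0 ≤ a) (x : ℝ) : 0 ≤ g a x := le_min ha (Real.sqrt_nonneg _)

/-- The vertical part of the divergence theorem on the truncated disk. -/
theorem vertical {a M : ℝ} (ha : 0 < a) {ψ : ℝ × ℝ → ℝ} (hψ : ContDiff ℝ 1 ψ)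
    (hc : HasCompactSupport ψ) (hM : ∀ p, |ψ p| ≤ M) :
    ∫ p in tdisk a, fderiv ℝ ψ p (0, 1) ≤ 4 * a * M := by
  have hM0 : 0 ≤ M := (abs_nonneg _).trans (hM 0)
  have hcont : Continuous fun p : ℝ × ℝ => fderiv ℝ ψ p (0, 1) :=
    (hψ.continuous_fderiv (by norm_num)).clm_apply continuous_const
  have hcs : HasCompactSupport fun p : ℝ × ℝ => fderiv ℝ ψ p (0, 1) := hc.fderiv_apply ℝ (0, 1)
  have hint : Integrable fun p : ℝ × ℝ => fderiv ℝ ψ p (0, 1) :=
    hcont.integrable_of_hasCompactSupport hcs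
  have hint2 : Integrable ((tdisk a).indicator fun p : ℝ × ℝ => fderiv ℝ ψ p (0, 1)) :=
    hint.indicator (isOpen_tdisk a).measurableSet
  rw [← integral_indicator (isOpen_tdisk a).measurableSet, Measure.volume_eq_prod,
    integral_prod _ (by rw [← Measure.volume_eq_prod]; exact hint2)]
  have hinner : ∀ x : ℝ, ∫ y, (tdisk a).indicator (fun p : ℝ × ℝ => fderiv ℝ ψ p (0, 1)) (x, y) ≤
      (Set.Ioo (-a) a).indicator (fun _ => 2 * M) x := by
    intro x
    have e1 : (fun y => (tdisk a).indicator (fun p : ℝ × ℝ => fderiv ℝ ψ p (0, 1)) (x, y)) =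
        (Prod.mk x ⁻¹' tdisk a).indicator (fun y => fderiv ℝ ψ (x, y) (0, 1)) := by
      funext y
      by_cases h : (x, y) ∈ tdisk a
      · rw [Set.indicator_of_mem h, Set.indicator_of_mem (show y ∈ Prod.mk x ⁻¹' tdisk a from h)]
      · rw [Set.indicator_of_notMem h,
          Set.indicator_of_notMem (show y ∉ Prod.mk x ⁻¹' tdisk a from h)]
    rw [e1, tdisk_slice]
    split_ifs with hx
    · rw [Set.indicator_of_mem (show x ∈ Set.Ioo (-a) a from abs_lt.1 hx),
        integral_indicator measurableSet_Ioo, ← integral_Ioc_eq_integral_Ioo,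
        ← intervalIntegral.integral_of_le (by linarith [g_nonneg ha.le x])]
      have hd : ∀ y ∈ Set.uIcc (-g a x) (g a x),
          HasDerivAt (fun y => ψ (x, y)) (fderiv ℝ ψ (x, y) (0, 1)) y := by
        intro y _
        have h1 : HasFDerivAt ψ (fderiv ℝ ψ (x, y)) (x, y) :=
          (hψ.differentiable (by norm_num) (x, y)).hasFDerivAt
        have h2 : HasDerivAt (fun y : ℝ => (x, y)) ((0 : ℝ), (1 : ℝ)) y :=
          (hasDerivAt_const y x).prodMk (hasDerivAt_id y)
        exact h1.comp_hasDerivAt y h2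
      rw [intervalIntegral.integral_eq_sub_of_hasDerivAt hd
        ((hcont.comp (by fun_prop : Continuous fun y : ℝ => (x, y))).intervalIntegrable _ _)]
      have h1 := (abs_le.1 (hM (x, g a x))).2
      have h2 := (abs_le.1 (hM (x, -g a x))).1
      linarith
    · rw [Set.indicator_empty, integral_zero]
      exact Set.indicator_nonneg (fun _ _ => by linarith) _
  have hint3 : Integrable ((Set.Ioo (-a) a).indicator fun _ : ℝ => 2 * M) :=
    (integrable_indicator_iff measurableSet_Ioo).2 (integrableOn_const (by simp) (by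
      exact enorm_ne_top))
  refine (integral_mono ?_ hint3 hinner).trans ?_
  · exact (by rw [← Measure.volume_eq_prod]; exact hint2 :
      Integrable ((tdisk a).indicator fun p : ℝ × ℝ => fderiv ℝ ψ p (0, 1))
        ((volume : Measure ℝ).prod volume)).integral_prod_left
  · rw [integral_indicator measurableSet_Ioo, setIntegral_const, Measure.real, Real.volume_Ioo,
      ENNReal.toReal_ofReal (by linarith), smul_eq_mul]
    linarith

/-- The horizontal part, by symmetry. -/
theorem horizontal {a M : ℝ} (ha : 0 < a) {ψ : ℝ × ℝ → ℝ} (hψ : ContDiff ℝ 1 ψ)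
    (hc : HasCompactSupport ψ) (hM : ∀ p, |ψ p| ≤ M) :
    ∫ p in tdisk a, fderiv ℝ ψ p (1, 0) ≤ 4 * a * M := by
  let s : (ℝ × ℝ) ≃L[ℝ] (ℝ × ℝ) := ContinuousLinearEquiv.prodComm ℝ ℝ ℝ
  have hs : ContDiff ℝ 1 (ψ ∘ s) := hψ.comp s.contDiff
  have hsc : HasCompactSupport (ψ ∘ s) := hc.comp_homeomorph s.toHomeomorph
  have h1 := vertical ha hs hsc (fun p => hM (s p))
  have h2 : ∫ p in tdisk a, fderiv ℝ ψ p (1, 0) = ∫ p in tdisk a, fderiv ℝ (ψ ∘ s) p (0, 1) := by
    have hmp : MeasurePreserving (Prod.swap : ℝ × ℝ → ℝ × ℝ) volume volume :=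
      Measure.measurePreserving_swap
    have he : MeasurableEmbedding (Prod.swap : ℝ × ℝ → ℝ × ℝ) :=
      MeasurableEquiv.prodComm.measurableEmbedding
    have h3 := hmp.setIntegral_preimage_emb he (fun p => fderiv ℝ ψ p (1, 0)) (tdisk a)
    have h4 : Prod.swap ⁻¹' tdisk a = tdisk a := by
      ext ⟨x, y⟩
      simp only [tdisk, Set.mem_preimage, Set.mem_ofPred_eq, Prod.swap]
      constructor
      · rintro ⟨h1, h2, h3⟩; exact ⟨by linarith, h3, h2⟩
      · rintro ⟨h1, h2, h3⟩; exact ⟨by linarith, h3, h2⟩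
    rw [h4] at h3
    rw [← h3]
    congr 1
    funext p
    have h5 : fderiv ℝ (ψ ∘ s) p = (fderiv ℝ ψ (s p)).comp (s : (ℝ × ℝ) →L[ℝ] (ℝ × ℝ)) :=
      ContinuousLinearEquiv.comp_right_fderiv s
    rw [h5]
    rfl
  rw [h2]
  exact h1

/-- Antiderivative of `√(1 - x²)`. -/
noncomputable def prim (x : ℝ) : ℝ := (x * √(1 - x ^ 2) + arcsin x) / 2

theorem prim_deriv {x : ℝ} (h1 : -1 < x) (h2 : x < 1) : HasDerivAt prim √(1 - x ^ 2) x := by
  have h0 : 0 < 1 - x ^ 2 := by nlinarith
  have hs : 0 < √(1 - x ^ 2) := Real.sqrt_pos.2 h0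
  have e1 : HasDerivAt (fun x : ℝ => 1 - x ^ 2) (-(2 * x)) x := by
    have := (hasDerivAt_pow 2 x).const_sub 1
    simpa using this
  have e2 := e1.sqrt h0.ne'
  have e3 := (hasDerivAt_id x).mul e2
  have e4 := hasDerivAt_arcsin h1.ne' h2.ne
  have e5 := (e3.add e4).div_const 2
  refine HasDerivAt.congr_deriv e5 ?_
  have hsq : √(1 - x ^ 2) ^ 2 = 1 - x ^ 2 := Real.sq_sqrt h0.le
  simp only [id]
  field_simp
  nlinarith

theorem volume_tdisk_ge {a b : ℝ} (hb : 0 < b) (hba : b ≤ a) (hab : a ^ 2 + b ^ 2 = 1) :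
    ENNReal.ofReal (4 * a * b + 4 * (prim a - prim b)) ≤ volume (tdisk a) := by
  have ha : 0 < a := hb.trans_le hba
  have ha1 : a < 1 := by nlinarith
  have hgc : Continuous (g a) := by unfold g; fun_prop
  have hset : tdisk a = regionBetween (fun x => -g a x) (g a) (Set.Ioo (-a) a) := by
    ext ⟨x, y⟩
    have h := Set.ext_iff.1 (tdisk_slice (a := a) x) y
    rw [Set.mem_preimage] at h
    rw [h]
    simp only [regionBetween, Set.mem_ofPred_eq]
    split_ifs with hx
    · exact ⟨fun h => ⟨abs_lt.1 hx, h⟩, fun h => h.2⟩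
    · exact ⟨fun h => h.elim, fun h => absurd (abs_lt.2 h.1) hx⟩
  have hint : ∀ u v : ℝ, IntervalIntegrable (g a) volume u v := fun u v =>
    hgc.intervalIntegrable u v
  have hvol : volume (tdisk a) = ENNReal.ofReal (∫ x in Set.Ioo (-a) a, (g a - fun x => -g a x) x) := by
    rw [hset]
    refine volume_regionBetween_eq_integral ?_ ?_ measurableSet_Ioo ?_
    · exact (hgc.neg.integrableOn_Icc (a := -a) (b := a)).mono_set Set.Ioo_subset_Icc_self
    · exact (hgc.integrableOn_Icc (a := -a) (b := a)).mono_set Set.Ioo_subset_Icc_self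
    · intro x _
      have := g_nonneg ha.le x
      show -g a x ≤ g a x
      linarith
  rw [hvol]
  apply ENNReal.ofReal_le_ofReal
  have e0 : ∫ x in Set.Ioo (-a) a, (g a - fun x => -g a x) x = 2 * ∫ x in (-a)..a, g a x := by
    rw [← integral_Ioc_eq_integral_Ioo, ← intervalIntegral.integral_of_le (by linarith),
      ← intervalIntegral.integral_const_mul]
    congr 1
    funext x
    simp only [Pi.sub_apply]; ring
  have e1 : ∫ x in (-a)..a, g a x =
      (∫ x in (-a)..(-b), g a x) + (∫ x in (-b)..b, g a x) + ∫ x in b..a, g a x := by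
    rw [intervalIntegral.integral_add_adjacent_intervals (hint _ _) (hint _ _),
      intervalIntegral.integral_add_adjacent_intervals (hint _ _) (hint _ _)]
  have hgs : ∀ x : ℝ, b ≤ |x| → g a x = √(1 - x ^ 2) := by
    intro x hx
    have h1 : b ^ 2 ≤ x ^ 2 := by rw [← sq_abs x]; gcongr
    refine min_eq_right ?_
    rw [Real.sqrt_le_left ha.le]
    linarith
  have hgm : ∀ x : ℝ, |x| ≤ b → g a x = a := by
    intro x hx
    have h1 : x ^ 2 ≤ b ^ 2 := by rw [← sq_abs x]; gcongr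
    refine min_eq_left ?_
    rw [Real.le_sqrt' ha]
    linarith
  have e2 : ∫ x in (-b)..b, g a x = 2 * a * b := by
    rw [intervalIntegral.integral_congr (g := fun _ => a)]
    · rw [intervalIntegral.integral_const, smul_eq_mul]; ring
    · intro x hx
      rw [Set.uIcc_of_le (by linarith)] at hx
      exact hgm x (abs_le.2 hx)
  have hsc : Continuous fun x : ℝ => √(1 - x ^ 2) := by fun_prop
  have e3 : ∫ x in b..a, g a x = prim a - prim b := by
    rw [intervalIntegral.integral_congr (g := fun x => √(1 - x ^ 2))]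
    · refine intervalIntegral.integral_eq_sub_of_hasDerivAt (fun x hx => ?_)
        (hsc.intervalIntegrable _ _)
      rw [Set.uIcc_of_le hba] at hx
      exact prim_deriv (by linarith [hx.1]) (by linarith [hx.2])
    · intro x hx
      rw [Set.uIcc_of_le hba] at hx
      exact hgs x (hx.1.trans (le_abs_self x))
  have hodd : ∀ x, prim (-x) = -prim x := by
    intro x; simp only [prim, arcsin_neg, neg_sq]; ring
  have e4 : ∫ x in (-a)..(-b), g a x = prim a - prim b := by
    rw [intervalIntegral.integral_congr (g := fun x => √(1 - x ^ 2))]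
    · rw [intervalIntegral.integral_eq_sub_of_hasDerivAt (f := prim) (fun x hx => ?_)
        (hsc.intervalIntegrable _ _), hodd, hodd]
      · ring
      · rw [Set.uIcc_of_le (by linarith)] at hx
        exact prim_deriv (by linarith [hx.1]) (by linarith [hx.2])
    · intro x hx
      rw [Set.uIcc_of_le (by linarith)] at hx
      refine hgs x ?_
      rw [← abs_neg]
      exact le_trans (by linarith [hx.2]) (le_abs_self (-x))
  rw [e0, e1, e2, e3, e4]
  linarith

/-- The truncated disk with `a = cos (π/8)` has area at least `π/2 + √2`. -/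
theorem volume_tdisk :
    ENNReal.ofReal (π / 2 + √2) ≤ volume (tdisk (cos (π / 8))) := by
  have hpi := pi_pos
  have hb : 0 < sin (π / 8) := sin_pos_of_pos_of_lt_pi (by positivity) (by linarith)
  have hsc : sin (π / 8) ≤ cos (π / 8) := by
    rw [← cos_pi_div_two_sub]
    exact cos_le_cos_of_nonneg_of_le_pi (by positivity) (by linarith) (by linarith)
  have h := volume_tdisk_ge hb hsc (cos_sq_add_sin_sq (π / 8))
  refine le_trans (le_of_eq ?_) h
  congr 1
  have h1 : prim (sin (π / 8)) = (sin (π / 8) * cos (π / 8) + π / 8) / 2 := by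
    have hc : 0 ≤ cos (π / 8) := hb.le.trans hsc
    rw [prim, ← cos_sq', Real.sqrt_sq hc, arcsin_sin (by linarith) (by linarith)]
  have h2 : prim (cos (π / 8)) = (sin (π / 8) * cos (π / 8) + 3 * π / 8) / 2 := by
    rw [prim, ← sin_sq, Real.sqrt_sq hb.le]
    have : arcsin (cos (π / 8)) = 3 * π / 8 := by
      rw [← sin_pi_div_two_sub, arcsin_sin (by linarith) (by linarith)]
      ring
    rw [this]; ring
  rw [h1, h2]
  have h3 : 2 * (sin (π / 8) * cos (π / 8)) = √2 / 2 := by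
    rw [← mul_assoc, ← sin_two_mul, show 2 * (π / 8) = π / 4 by ring, sin_pi_div_four]
  linarith

/-- Upper bound for the Cheeger constant of the disk. -/
theorem cheeger_le {K : Set (ℝ × ℝ)} {c c' a : ℝ} (ha : 0 < a)
    (hK : ∀ y ∈ closure K, |y.1| ≤ c ∧ |y.2| ≤ c') (hvol : 0 < volume (tdisk a)) :
    cheeger K disk ≤ ENNReal.ofReal (4 * a * c + 4 * a * c') / volume (tdisk a) := by
  refine iInf_le_of_le (tdisk a) (iInf_le_of_le (isOpen_tdisk a).measurableSet
    (iInf_le_of_le (fun x hx => hx.1) (iInf_le_of_le hvol ?_)))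
  refine ENNReal.div_le_div_right ?_ _
  refine iSup₂_le fun φ hφ => ENNReal.ofReal_le_ofReal ?_
  obtain ⟨h1, h2, h3⟩ := hφ
  have c1 : ContDiff ℝ 1 (fun x => (φ x).1) := contDiff_fst.comp h1
  have c2 : ContDiff ℝ 1 (fun x => (φ x).2) := contDiff_snd.comp h1
  have s1 : HasCompactSupport (fun x => (φ x).1) := h2.comp_left (g := Prod.fst) rfl
  have s2 : HasCompactSupport (fun x => (φ x).2) := h2.comp_left (g := Prod.snd) rfl
  have b1 := horizontal ha c1 s1 (fun x => (hK _ (h3 x)).1)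
  have b2 := vertical ha c2 s2 (fun x => (hK _ (h3 x)).2)
  have hd : ∀ x, div φ x = fderiv ℝ (fun x => (φ x).1) x (1, 0) +
      fderiv ℝ (fun x => (φ x).2) x (0, 1) := by
    intro x
    have hx := (h1.differentiable (by norm_num) x)
    have f1 : fderiv ℝ (fun x => (φ x).1) x = (ContinuousLinearMap.fst ℝ ℝ ℝ).comp (fderiv ℝ φ x) :=
      hx.hasFDerivAt.fst.fderiv
    have f2 : fderiv ℝ (fun x => (φ x).2) x = (ContinuousLinearMap.snd ℝ ℝ ℝ).comp (fderiv ℝ φ x) :=
      hx.hasFDerivAt.snd.fderiv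
    rw [div, f1, f2]
    rfl
  have i1 : Integrable fun x => fderiv ℝ (fun x => (φ x).1) x (1, 0) :=
    ((c1.continuous_fderiv (by norm_num)).clm_apply continuous_const).integrable_of_hasCompactSupport
      (s1.fderiv_apply ℝ (1, 0))
  have i2 : Integrable fun x => fderiv ℝ (fun x => (φ x).2) x (0, 1) :=
    ((c2.continuous_fderiv (by norm_num)).clm_apply continuous_const).integrable_of_hasCompactSupport
      (s2.fderiv_apply ℝ (0, 1))
  simp only [hd]
  rw [integral_add i1.integrableOn i2.integrableOn]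
  linarith

/-! ### The competing polygon -/

/-- The point of the unit circle at angle `θ`. -/
noncomputable def cp (θ : ℝ) : ℝ × ℝ := (cos θ, sin θ)

theorem cp_injOn {α β : ℝ} (h1 : -(2 * π) < α - β) (h2 : α - β < 2 * π) (h : cp α = cp β) :
    α = β := by
  have hc : cos α = cos β := congrArg Prod.fst h
  have hs : sin α = sin β := congrArg Prod.snd h
  have h3 : cos (α - β) = 1 := by
    rw [cos_sub, hc, hs]
    have := cos_sq_add_sin_sq β
    nlinarith
  have h4 := (cos_eq_one_iff_of_lt_of_lt h1 h2).1 h3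
  linarith

/-- The angles: `-π/4` and the cluster `π/4 + η i / m`, `i < m`. -/
noncomputable def ang (η : ℝ) (m : ℕ) (q : Bool × Fin (m + 1)) : ℝ :=
  (if (q.2 : ℕ) = 0 then -π / 4 else π / 4 + η * (((q.2 : ℕ) : ℝ) - 1) / m) +
    (if q.1 then π else 0)

/-- The vertices. -/
noncomputable def verts (η : ℝ) (m : ℕ) : Finset (ℝ × ℝ) :=
  Finset.univ.image fun q : Bool × Fin (m + 1) => cp (ang η m q)

theorem ang_inj {η : ℝ} (hη : 0 < η) (hη1 : η < 1) {m : ℕ} (hm : 0 < m) :
    Function.Injective fun q : Bool × Fin (m + 1) => cp (ang η m q) := by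
  have hm' : (0 : ℝ) < m := by exact_mod_cast hm
  have hpi := pi_gt_three
  have hpi4 := pi_le_four
  -- base angle
  set β : Fin (m + 1) → ℝ := fun i =>
    if (i : ℕ) = 0 then -π / 4 else π / 4 + η * (((i : ℕ) : ℝ) - 1) / m with hβ
  have hb : ∀ i : Fin (m + 1), -π / 4 ≤ β i ∧ β i < π / 4 + η := by
    intro i
    simp only [hβ]
    split_ifs with h
    · constructor <;> linarith
    · have h1 : (1 : ℝ) ≤ ((i : ℕ) : ℝ) := by exact_mod_cast Nat.one_le_iff_ne_zero.2 h
      have h2 : ((i : ℕ) : ℝ) ≤ m := by exact_mod_cast Nat.lt_succ_iff.1 i.2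
      have h3 : 0 ≤ η * (((i : ℕ) : ℝ) - 1) / m :=
        div_nonneg (mul_nonneg hη.le (by linarith)) hm'.le
      have h4 : η * (((i : ℕ) : ℝ) - 1) / m < η := by
        rw [div_lt_iff₀ hm']; nlinarith
      constructor <;> linarith
  have hbi : ∀ i j : Fin (m + 1), β i = β j → i = j := by
    intro i j hij
    simp only [hβ] at hij
    split_ifs at hij with h1 h2 h2
    · exact Fin.ext (h1.trans h2.symm)
    · exfalso
      have h3 : (1 : ℝ) ≤ ((j : ℕ) : ℝ) := by exact_mod_cast Nat.one_le_iff_ne_zero.2 h2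
      have h4 : 0 ≤ η * (((j : ℕ) : ℝ) - 1) / m :=
        div_nonneg (mul_nonneg hη.le (by linarith)) hm'.le
      linarith
    · exfalso
      have h3 : (1 : ℝ) ≤ ((i : ℕ) : ℝ) := by exact_mod_cast Nat.one_le_iff_ne_zero.2 h1
      have h4 : 0 ≤ η * (((i : ℕ) : ℝ) - 1) / m :=
        div_nonneg (mul_nonneg hη.le (by linarith)) hm'.le
      linarith
    · have h3 : η * (((i : ℕ) : ℝ) - 1) / m = η * (((j : ℕ) : ℝ) - 1) / m := by linarith
      rw [div_left_inj' hm'.ne'] at h3
      have h4 := mul_left_cancel₀ hη.ne' h3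
      have h5 : ((i : ℕ) : ℝ) = ((j : ℕ) : ℝ) := by linarith
      exact Fin.ext (by exact_mod_cast h5)
  rintro ⟨b₁, i⟩ ⟨b₂, j⟩ h
  have ha : ∀ (b : Bool) (i : Fin (m + 1)), ang η m (b, i) = β i + (if b then π else 0) :=
    fun _ _ => rfl
  have key : ang η m (b₁, i) = ang η m (b₂, j) := by
    apply cp_injOn _ _ h <;>
    · rw [ha, ha]
      have h1 := hb i
      have h2 := hb j
      cases b₁ <;> cases b₂ <;> simp only [if_true, Bool.false_eq_true, if_false] <;> linarith [h1.1, h1.2, h2.1, h2.2]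
  rw [ha, ha] at key
  have h1 := hb i
  have h2 := hb j
  cases b₁ <;> cases b₂ <;> simp only [if_true, Bool.false_eq_true, if_false] at key
  · rw [hbi i j (by linarith)]
  · exfalso; linarith [h1.1, h1.2, h2.1, h2.2]
  · exfalso; linarith [h1.1, h1.2, h2.1, h2.2]
  · rw [hbi i j (by linarith)]

theorem verts_card {η : ℝ} (hη : 0 < η) (hη1 : η < 1) {m : ℕ} (hm : 0 < m) :
    (verts η m).card = 2 * m + 2 := by
  rw [verts, Finset.card_image_of_injective _ (ang_inj hη hη1 hm)]
  simp; ring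

theorem verts_unit {η : ℝ} {m : ℕ} {p : ℝ × ℝ} (hp : p ∈ verts η m) : p.1 ^ 2 + p.2 ^ 2 = 1 := by
  rw [verts, Finset.mem_image] at hp
  obtain ⟨q, -, rfl⟩ := hp
  exact cos_sq_add_sin_sq _

theorem verts_neg {η : ℝ} {m : ℕ} {p : ℝ × ℝ} (hp : p ∈ verts η m) : -p ∈ verts η m := by
  rw [verts, Finset.mem_image] at hp ⊢
  obtain ⟨⟨b, i⟩, -, rfl⟩ := hp
  refine ⟨(!b, i), Finset.mem_univ _, ?_⟩
  cases b
  · show cp (_ + (if (!false) = true then π else 0)) = -cp (_ + (if false = true then π else 0))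
    simp only [Bool.not_false, if_true, Bool.false_eq_true, if_false, add_zero, cp, cos_add_pi,
      sin_add_pi, Prod.neg_mk]
  · show cp (_ + (if (!true) = true then π else 0)) = -cp (_ + (if true = true then π else 0))
    simp only [Bool.not_true, if_true, Bool.false_eq_true, if_false, add_zero, cp, cos_add_pi,
      sin_add_pi, Prod.neg_mk, neg_neg]

/-- Points on the unit circle are in convex position. -/
theorem convex_position {S : Finset (ℝ × ℝ)} (hS : ∀ p ∈ S, p.1 ^ 2 + p.2 ^ 2 = 1) :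
    ∀ s ∈ S, s ∉ convexHull ℝ ((S : Set (ℝ × ℝ)) \ {s}) := by
  intro s hs hmem
  have hconv : Convex ℝ {y : ℝ × ℝ | dot s y < 1} := by
    intro y hy z hz u v hu hv huv
    have e : dot s (u • y + v • z) = u * dot s y + v * dot s z := by simp [dot]; ring
    show dot s (u • y + v • z) < 1
    have hy' : dot s y < 1 := hy
    have hz' : dot s z < 1 := hz
    rw [e]
    rcases hu.eq_or_lt with h | h
    · rw [← h] at huv ⊢
      have : v = 1 := by linarith
      rw [this]; linarith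
    · nlinarith
  have hsub : (S : Set (ℝ × ℝ)) \ {s} ⊆ {y : ℝ × ℝ | dot s y < 1} := by
    rintro y ⟨hy, hne⟩
    have h1 := hS s hs
    have h2 := hS y hy
    show dot s y < 1
    by_contra hcon
    apply hne
    rw [not_lt, dot] at hcon
    have h3 : (s.1 - y.1) ^ 2 + (s.2 - y.2) ^ 2 ≤ 0 := by nlinarith
    have h4 : s.1 - y.1 = 0 := by nlinarith [sq_nonneg (s.1 - y.1), sq_nonneg (s.2 - y.2)]
    have h5 : s.2 - y.2 = 0 := by nlinarith [sq_nonneg (s.1 - y.1), sq_nonneg (s.2 - y.2)]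
    exact Prod.ext (by linarith) (by linarith)
  have h1 : dot s s < 1 := convexHull_min hsub hconv hmem
  have h2 := hS s hs
  rw [dot] at h1
  nlinarith

/-- The competing polygon. -/
noncomputable def poly (η : ℝ) (m : ℕ) : Set (ℝ × ℝ) :=
  interior (convexHull ℝ (verts η m : Set (ℝ × ℝ)))

theorem verts_corner {η : ℝ} {m : ℕ} (hm : 0 < m) :
    (√2 / 2, √2 / 2) ∈ verts η m ∧ (√2 / 2, -(√2 / 2)) ∈ verts η m := by
  have hm' : (m : ℝ) ≠ 0 := by exact_mod_cast hm.ne'
  constructor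
  · rw [verts, Finset.mem_image]
    refine ⟨(false, ⟨1, by omega⟩), Finset.mem_univ _, ?_⟩
    simp [ang, cp, cos_pi_div_four, sin_pi_div_four]
  · rw [verts, Finset.mem_image]
    refine ⟨(false, ⟨0, by omega⟩), Finset.mem_univ _, ?_⟩
    simp [ang, cp, neg_div, cos_pi_div_four, sin_pi_div_four]

/-- The polygon contains the open square. -/
theorem square_subset {η : ℝ} {m : ℕ} (hm : 0 < m) {x : ℝ × ℝ} (h1 : |x.1| < √2 / 2)
    (h2 : |x.2| < √2 / 2) : x ∈ poly η m := by
  have hc := convex_convexHull ℝ (verts η m : Set (ℝ × ℝ))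
  obtain ⟨v1, v2⟩ := verts_corner (η := η) hm
  have v3 := verts_neg v1
  have v4 := verts_neg v2
  have w1 := subset_convexHull ℝ (verts η m : Set (ℝ × ℝ)) (Finset.mem_coe.2 v1)
  have w2 := subset_convexHull ℝ (verts η m : Set (ℝ × ℝ)) (Finset.mem_coe.2 v2)
  have w3 := subset_convexHull ℝ (verts η m : Set (ℝ × ℝ)) (Finset.mem_coe.2 v3)
  have w4 := subset_convexHull ℝ (verts η m : Set (ℝ × ℝ)) (Finset.mem_coe.2 v4)
  have hs2 : 0 < √2 := by positivity
  have hsq : ∀ y : ℝ × ℝ, |y.1| < √2 / 2 → |y.2| < √2 / 2 →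
      y ∈ convexHull ℝ (verts η m : Set (ℝ × ℝ)) := by
    intro y hy1 hy2
    rw [abs_lt] at hy1 hy2
    have top : (y.1, √2 / 2) ∈ convexHull ℝ (verts η m : Set (ℝ × ℝ)) := by
      have := hc w1 w4 (a := (y.1 + √2 / 2) / √2) (b := (√2 / 2 - y.1) / √2)
        (div_nonneg (by linarith [hy1.1]) hs2.le) (div_nonneg (by linarith [hy1.2]) hs2.le)
        (by field_simp; ring)
      convert this using 1
      ext
      · simp; field_simp; ring
      · simp; field_simp; ring
    have bot : (y.1, -(√2 / 2)) ∈ convexHull ℝ (verts η m : Set (ℝ × ℝ)) := by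
      have := hc w2 w3 (a := (y.1 + √2 / 2) / √2) (b := (√2 / 2 - y.1) / √2)
        (div_nonneg (by linarith [hy1.1]) hs2.le) (div_nonneg (by linarith [hy1.2]) hs2.le)
        (by field_simp; ring)
      convert this using 1
      ext
      · simp; field_simp; ring
      · simp; field_simp; ring
    have := hc top bot (a := (y.2 + √2 / 2) / √2) (b := (√2 / 2 - y.2) / √2)
      (div_nonneg (by linarith [hy2.1]) hs2.le) (div_nonneg (by linarith [hy2.2]) hs2.le)
      (by field_simp; ring)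
    convert this using 1
    ext
    · simp; field_simp; ring
    · simp; field_simp; ring
  have hopen : IsOpen {y : ℝ × ℝ | |y.1| < √2 / 2 ∧ |y.2| < √2 / 2} := by
    have g1 : Continuous fun x : ℝ × ℝ => |x.1| := by fun_prop
    have g2 : Continuous fun x : ℝ × ℝ => |x.2| := by fun_prop
    exact (isOpen_lt g1 continuous_const).inter (isOpen_lt g2 continuous_const)
  exact interior_maximal (fun y hy => hsq y hy.1 hy.2) hopen ⟨h1, h2⟩

theorem poly_symConvex (η : ℝ) {m : ℕ} (hm : 0 < m) : IsSymConvex (poly η m) := by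
  have hs2 : 0 < √2 := by positivity
  refine ⟨⟨0, square_subset hm (by simp) (by simp)⟩, isOpen_interior, ?_,
    (convex_convexHull ℝ _).interior, ?_⟩
  · refine Bornology.IsBounded.subset ?_ interior_subset
    exact isBounded_convexHull.2 (Finset.finite_toSet _).isBounded
  · intro x hx
    have h1 : -(convexHull ℝ (verts η m : Set (ℝ × ℝ))) = convexHull ℝ (verts η m : Set (ℝ × ℝ)) := by
      rw [← convexHull_neg]
      congr 1
      ext p
      rw [Set.mem_neg, Finset.mem_coe, Finset.mem_coe]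
      exact ⟨fun h => by simpa using verts_neg h, verts_neg⟩
    have h2 : -interior (convexHull ℝ (verts η m : Set (ℝ × ℝ))) =
        interior (-(convexHull ℝ (verts η m : Set (ℝ × ℝ)))) := by
      simpa using ((Homeomorph.neg (ℝ × ℝ)).preimage_interior
        (convexHull ℝ (verts η m : Set (ℝ × ℝ))))
    rw [h1] at h2
    rw [poly, ← h2, Set.mem_neg] at hx
    exact hx

/-- Bounds for the polygon. -/
theorem poly_bound {η : ℝ} (hη : 0 < η) (hη1 : η < 1 / 4) {m : ℕ} (hm : 0 < m) :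
    ∀ y ∈ closure (poly η m), |y.1| ≤ √2 / 2 ∧ |y.2| ≤ √2 / 2 + η := by
  have hm' : (0 : ℝ) < m := by exact_mod_cast hm
  have hpi := pi_gt_three
  have hpi4 := pi_le_four
  have hs2 : 0 < √2 := by positivity
  have hconv : Convex ℝ {y : ℝ × ℝ | |y.1| ≤ √2 / 2 ∧ |y.2| ≤ √2 / 2 + η} := by
    intro y hy z hz u v hu hv huv
    obtain ⟨a1, a2⟩ := hy
    obtain ⟨b1, b2⟩ := hz
    rw [abs_le] at a1 a2 b1 b2
    refine ⟨?_, ?_⟩
    · rw [abs_le]; simp only [Prod.fst_add, Prod.smul_fst, smul_eq_mul]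
      constructor <;> nlinarith
    · rw [abs_le]; simp only [Prod.snd_add, Prod.smul_snd, smul_eq_mul]
      constructor <;> nlinarith
  have hcl : IsClosed {y : ℝ × ℝ | |y.1| ≤ √2 / 2 ∧ |y.2| ≤ √2 / 2 + η} := by
    have g1 : Continuous fun x : ℝ × ℝ => |x.1| := by fun_prop
    have g2 : Continuous fun x : ℝ × ℝ => |x.2| := by fun_prop
    exact (isClosed_le g1 continuous_const).inter (isClosed_le g2 continuous_const)
  have hbase : ∀ α : ℝ, (α = -π / 4 ∨ (π / 4 ≤ α ∧ α ≤ π / 4 + η)) →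
      |cos α| ≤ √2 / 2 ∧ |sin α| ≤ √2 / 2 + η := by
    rintro α (rfl | ⟨h1, h2⟩)
    · rw [neg_div, cos_neg, sin_neg, cos_pi_div_four, sin_pi_div_four, abs_neg,
        abs_of_pos (by positivity)]
      exact ⟨le_rfl, by linarith⟩
    · have hc0 : 0 ≤ cos α := cos_nonneg_of_mem_Icc ⟨by linarith, by linarith⟩
      have hs0 : 0 ≤ sin α := sin_nonneg_of_mem_Icc ⟨by linarith, by linarith⟩
      rw [abs_of_nonneg hc0, abs_of_nonneg hs0]
      constructor
      · rw [← cos_pi_div_four]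
        exact cos_le_cos_of_nonneg_of_le_pi (by positivity) (by linarith) h1
      · have h3 : sin α = sin (π / 4) * cos (α - π / 4) + cos (π / 4) * sin (α - π / 4) := by
          rw [← sin_add]; congr 1; ring
        rw [h3, sin_pi_div_four, cos_pi_div_four]
        have h4 : sin (α - π / 4) ≤ α - π / 4 := sin_le (by linarith)
        have h5 : cos (α - π / 4) ≤ 1 := cos_le_one _
        have h6 : √2 / 2 ≤ 1 := by
          rw [div_le_one two_pos]
          exact Real.sqrt_le_iff.2 ⟨by norm_num, by norm_num⟩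
        nlinarith
  have hsub : (verts η m : Set (ℝ × ℝ)) ⊆ {y : ℝ × ℝ | |y.1| ≤ √2 / 2 ∧ |y.2| ≤ √2 / 2 + η} := by
    intro p hp
    rw [Finset.mem_coe, verts, Finset.mem_image] at hp
    obtain ⟨⟨b, i⟩, -, rfl⟩ := hp
    have hα : ∀ i : Fin (m + 1),
        (if (i : ℕ) = 0 then -π / 4 else π / 4 + η * (((i : ℕ) : ℝ) - 1) / m) = -π / 4 ∨
        (π / 4 ≤ (if (i : ℕ) = 0 then -π / 4 else π / 4 + η * (((i : ℕ) : ℝ) - 1) / m) ∧
        (if (i : ℕ) = 0 then -π / 4 else π / 4 + η * (((i : ℕ) : ℝ) - 1) / m) ≤ π / 4 + η) := by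
      intro i
      split_ifs with h
      · exact Or.inl rfl
      · right
        have h1 : (1 : ℝ) ≤ ((i : ℕ) : ℝ) := by exact_mod_cast Nat.one_le_iff_ne_zero.2 h
        have h2 : ((i : ℕ) : ℝ) ≤ m := by exact_mod_cast Nat.lt_succ_iff.1 i.2
        have h3 : 0 ≤ η * (((i : ℕ) : ℝ) - 1) / m :=
          div_nonneg (mul_nonneg hη.le (by linarith)) hm'.le
        have h4 : η * (((i : ℕ) : ℝ) - 1) / m ≤ η := by
          rw [div_le_iff₀ hm']; nlinarith
        constructor <;> linarith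
    have h := hbase _ (hα i)
    cases b
    · simpa [cp, ang] using h
    · simpa [cp, ang, cos_add_pi, sin_add_pi] using h
  intro y hy
  exact closure_minimal (interior_subset.trans (convexHull_min hsub hconv)) hcl hy

theorem poly_isNGon {η : ℝ} (hη : 0 < η) (hη1 : η < 1) {m : ℕ} (hm : 0 < m) :
    IsNGon (2 * m + 2) (poly η m) :=
  ⟨poly_symConvex η hm, verts η m, verts_card hη hη1 hm,
    convex_position (fun _ hp => verts_unit hp), rfl⟩

/-- The polar of the polygon is contained in the rotated square `|u| + |v| < √2`, of area `4`. -/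
theorem volume_polar_poly {η : ℝ} {m : ℕ} (hm : 0 < m) : volume (polarSet (poly η m)) ≤ 4 := by
  have hs2 : 0 < √2 := by positivity
  have hK := poly_symConvex η hm
  have hbdd : ∀ x : ℝ × ℝ, BddAbove ((fun y => dot x y) '' poly η m) := by
    intro x
    have h1 : Bornology.IsBounded (poly η m) := hK.bounded
    obtain ⟨R, hR⟩ := h1.subset_closedBall 0
    refine ⟨|x.1| * R + |x.2| * R, ?_⟩
    rintro _ ⟨y, hy, rfl⟩
    have h2 := hR hy
    rw [mem_closedBall_zero_iff, Prod.norm_def, max_le_iff, Real.norm_eq_abs, Real.norm_eq_abs] at h2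
    calc dot x y ≤ |x.1 * y.1| + |x.2 * y.2| := add_le_add (le_abs_self _) (le_abs_self _)
      _ ≤ _ := by
        rw [abs_mul, abs_mul]
        exact add_le_add (mul_le_mul_of_nonneg_left h2.1 (abs_nonneg _))
          (mul_le_mul_of_nonneg_left h2.2 (abs_nonneg _))
  have hsub : polarSet (poly η m) ⊆
      regionBetween (fun u => -(√2 - |u|)) (fun u => √2 - |u|) (Set.Ioo (-√2) √2) := by
    intro x hx
    have hx1 : polarNorm (poly η m) x < 1 := hx
    have key : ∀ y : ℝ × ℝ, |y.1| ≤ √2 / 2 → |y.2| ≤ √2 / 2 → dot x y < 1 := by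
      intro y hy1 hy2
      refine lt_of_le_of_lt ?_ hx1
      have hlim : Tendsto (fun k : ℕ => dot x ((1 - 1 / ((k : ℝ) + 1)) • y)) atTop (𝓝 (dot x y)) := by
        have h2 : Tendsto (fun k : ℕ => (1 - 1 / ((k : ℝ) + 1)) * dot x y) atTop
            (𝓝 ((1 - 0) * dot x y)) :=
          (tendsto_const_nhds.sub tendsto_one_div_add_atTop_nhds_zero_nat).mul_const _
        rw [sub_zero, one_mul] at h2
        refine h2.congr fun k => ?_
        simp [dot]; ring
      refine le_of_tendsto' hlim fun k => ?_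
      refine le_csSup (hbdd x) ⟨(1 - 1 / ((k : ℝ) + 1)) • y, square_subset hm ?_ ?_, rfl⟩
      · have ht : 1 - 1 / ((k : ℝ) + 1) < 1 := by
          have : 0 < 1 / ((k : ℝ) + 1) := by positivity
          linarith
        have ht0 : 0 ≤ 1 - 1 / ((k : ℝ) + 1) := by
          rw [sub_nonneg, div_le_one (by positivity)]
          linarith [(Nat.cast_nonneg k : (0 : ℝ) ≤ k)]
        rw [Prod.smul_fst, smul_eq_mul, abs_mul, abs_of_nonneg ht0]
        nlinarith [abs_nonneg y.1]
      · have ht : 1 - 1 / ((k : ℝ) + 1) < 1 := by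
          have : 0 < 1 / ((k : ℝ) + 1) := by positivity
          linarith
        have ht0 : 0 ≤ 1 - 1 / ((k : ℝ) + 1) := by
          rw [sub_nonneg, div_le_one (by positivity)]
          linarith [(Nat.cast_nonneg k : (0 : ℝ) ≤ k)]
        rw [Prod.smul_snd, smul_eq_mul, abs_mul, abs_of_nonneg ht0]
        nlinarith [abs_nonneg y.2]
    have hsum : |x.1| + |x.2| < √2 := by
      have hc : |√2 / 2| ≤ √2 / 2 := (abs_of_pos (by positivity)).le
      have hc' : |-(√2 / 2)| ≤ √2 / 2 := by rw [abs_neg]; exact hc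
      have k1 := key (√2 / 2, √2 / 2) hc hc
      have k2 := key (√2 / 2, -(√2 / 2)) hc hc'
      have k3 := key (-(√2 / 2), √2 / 2) hc' hc
      have k4 := key (-(√2 / 2), -(√2 / 2)) hc' hc'
      simp only [dot] at k1 k2 k3 k4
      have h22 : √2 * √2 = 2 := Real.mul_self_sqrt (by norm_num)
      have main : ∀ t : ℝ, t * (√2 / 2) < 1 → t < √2 := by
        intro t ht
        nlinarith
      rcases abs_cases x.1 with h1 | h1 <;> rcases abs_cases x.2 with h2 | h2 <;>
        rw [h1.1, h2.1] <;> apply main <;> linarith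
    refine ⟨?_, ?_⟩
    · exact abs_lt.1 (by linarith [abs_nonneg x.2])
    · show x.2 ∈ Set.Ioo (-(√2 - |x.1|)) (√2 - |x.1|)
      exact abs_lt.1 (by linarith)
  refine (measure_mono hsub).trans ?_
  have hcont : Continuous fun u : ℝ => √2 - |u| := by fun_prop
  have hV : volume (regionBetween (fun u => -(√2 - |u|)) (fun u => √2 - |u|) (Set.Ioo (-√2) √2)) =
      ENNReal.ofReal (∫ y in Set.Ioo (-√2) √2,
        ((fun u => √2 - |u|) - fun u => -(√2 - |u|)) y) := by
    refine volume_regionBetween_eq_integral ?_ ?_ measurableSet_Ioo ?_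
    · exact (hcont.neg.integrableOn_Icc (a := -√2) (b := √2)).mono_set Set.Ioo_subset_Icc_self
    · exact (hcont.integrableOn_Icc (a := -√2) (b := √2)).mono_set Set.Ioo_subset_Icc_self
    · intro x hx
      have : |x| < √2 := abs_lt.2 hx
      show -(√2 - |x|) ≤ √2 - |x|
      linarith
  rw [hV]
  have e : ∫ y in Set.Ioo (-√2) √2, ((fun u => √2 - |u|) - fun u => -(√2 - |u|)) y = 4 := by
    rw [← integral_Ioc_eq_integral_Ioo, ← intervalIntegral.integral_of_le (by linarith)]
    have hi : ∀ u v : ℝ, IntervalIntegrable (fun y => 2 * (√2 - |y|)) volume u v := fun u v =>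
      (hcont.const_smul (2 : ℝ)).intervalIntegrable u v
    have e1 : ∫ y in (-√2)..√2, ((fun u => √2 - |u|) - fun u => -(√2 - |u|)) y =
        ∫ y in (-√2)..√2, 2 * (√2 - |y|) := by
      congr 1; funext y; simp only [Pi.sub_apply]; ring
    rw [e1, ← intervalIntegral.integral_add_adjacent_intervals (hi _ 0) (hi 0 _)]
    have e2 : ∫ y in (-√2)..0, 2 * (√2 - |y|) = ∫ y in (-√2)..0, (2 * √2 + 2 * y) := by
      refine intervalIntegral.integral_congr fun y hy => ?_
      rw [Set.uIcc_of_le (by linarith)] at hy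
      show 2 * (√2 - |y|) = 2 * √2 + 2 * y
      rw [abs_of_nonpos hy.2]; ring
    have e3 : ∫ y in (0 : ℝ)..√2, 2 * (√2 - |y|) = ∫ y in (0 : ℝ)..√2, (2 * √2 - 2 * y) := by
      refine intervalIntegral.integral_congr fun y hy => ?_
      rw [Set.uIcc_of_le (by linarith)] at hy
      show 2 * (√2 - |y|) = 2 * √2 - 2 * y
      rw [abs_of_nonneg hy.1]; ring
    have h22 : √2 * √2 = 2 := Real.mul_self_sqrt (by norm_num)
    rw [e2, e3, intervalIntegral.integral_add (by simp) (by apply Continuous.intervalIntegrable; fun_prop),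
      intervalIntegral.integral_sub (by simp) (by apply Continuous.intervalIntegrable; fun_prop),
      intervalIntegral.integral_const, intervalIntegral.integral_const,
      intervalIntegral.integral_const_mul, intervalIntegral.integral_const_mul, integral_id,
      integral_id]
    simp only [smul_eq_mul]
    nlinarith
  rw [e]
  simp

/-- Upper bound for the competing polygon. -/
theorem J_poly {η : ℝ} (hη : 0 < η) (hη1 : η < 1 / 4) {m : ℕ} (hm : 0 < m) :
    J disk (poly η m) ≤ ENNReal.ofReal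
      (8 * cos (π / 8) * (√2 + η) / (π / 2 + √2)) := by
  have hpi := pi_pos
  have ha : 0 < cos (π / 8) := cos_pos_of_mem_Ioo ⟨by linarith, by linarith⟩
  have hv : 0 < π / 2 + √2 := by positivity
  have hvol := volume_tdisk
  have hvol0 : 0 < volume (tdisk (cos (π / 8))) := (ENNReal.ofReal_pos.2 hv).trans_le hvol
  have h1 := cheeger_le ha (poly_bound hη hη1 hm) hvol0
  have h2 : ENNReal.ofReal (4 * cos (π / 8) * (√2 / 2) + 4 * cos (π / 8) * (√2 / 2 + η)) /
      volume (tdisk (cos (π / 8))) ≤ ENNReal.ofReal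
      (4 * cos (π / 8) * (√2 + η) / (π / 2 + √2)) := by
    rw [ENNReal.ofReal_div_of_pos hv]
    refine (ENNReal.div_le_div_left hvol _).trans (le_of_eq ?_)
    congr 2
    ring
  have h3 : volume (polarSet (poly η m)) ^ (1 / 2 : ℝ) ≤ ENNReal.ofReal 2 := by
    refine (ENNReal.rpow_le_rpow (volume_polar_poly hm) (by norm_num)).trans (le_of_eq ?_)
    have : (4 : ℝ≥0∞) = ENNReal.ofReal (2 ^ (2 : ℝ)) := by norm_num
    rw [this, ENNReal.ofReal_rpow_of_pos (by positivity), ← Real.rpow_mul (by norm_num)]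
    norm_num
  rw [J]
  refine (mul_le_mul' (h1.trans h2) h3).trans (le_of_eq ?_)
  rw [← ENNReal.ofReal_mul (by positivity)]
  congr 1
  ring

theorem numeric {n : ℕ} (hn : 22 ≤ n) :
    8 * cos (π / 8) * (√2 + 1 / 1000) / (π / 2 + √2) < 2 * √π * cos (π / n) := by
  have hpi1 := pi_gt_d4
  have hpi2 := pi_lt_d4
  have h22 : √2 ^ 2 = 2 := Real.sq_sqrt (by norm_num)
  have hs1 : (1.4142 : ℝ) < √2 := by
    rw [Real.lt_sqrt (by norm_num)]; norm_num
  have hs2 : √2 < (1.4143 : ℝ) := by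
    rw [Real.sqrt_lt' (by norm_num)]; norm_num
  have hc8 : cos (π / 8) ^ 2 = (2 + √2) / 4 := by
    rw [cos_pi_div_eight, div_pow, Real.sq_sqrt (by positivity)]; norm_num
  have hc8' : cos (π / 8) < (0.92391 : ℝ) := by
    apply lt_of_pow_lt_pow_left₀ 2 (by norm_num)
    rw [hc8]; norm_num; linarith
  have hn' : (22 : ℝ) ≤ n := by exact_mod_cast hn
  have hcn : (0.9898 : ℝ) < cos (π / n) := by
    have h1 : 1 - (π / n) ^ 2 / 2 ≤ cos (π / n) := one_sub_sq_div_two_le_cos
    have h2 : π / n < 0.1428 := by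
      rw [div_lt_iff₀ (by linarith)]; nlinarith
    have h3 : 0 < π / n := by positivity
    nlinarith
  have hsp : (1.77241 : ℝ) < √π := by
    rw [Real.lt_sqrt (by norm_num)]; norm_num; linarith
  rw [div_lt_iff₀ (by positivity)]
  have h4 : (2 * 1.77241 * 0.9898 : ℝ) < 2 * √π * cos (π / n) := by nlinarith
  have h5 : (2.985 : ℝ) - 0.00005 < π / 2 + √2 := by linarith
  have h6 : (2 * 1.77241 * 0.9898 : ℝ) * (2.985 - 0.00005) <
      2 * √π * cos (π / n) * (π / 2 + √2) := by nlinarith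
  have h7 : 8 * cos (π / 8) * (√2 + 1 / 1000) < 8 * 0.92391 * (1.4143 + 1 / 1000) := by
    have : 0 < cos (π / 8) := cos_pos_of_mem_Ioo ⟨by linarith, by linarith⟩
    nlinarith
  refine h7.trans (lt_trans ?_ h6)
  norm_num

/-- **Answer to Q1 (no).** For every even `n ≥ 22` there is a centrally symmetric convex `n`-gon `P`
with `𝒥_B[P] < 𝒥_B[P*_n]`. -/
theorem result : ∀ n : ℕ, Even n → 22 ≤ n →
    ∃ P : Set (ℝ × ℝ), IsNGon n P ∧ J disk P < J disk (regularNgon n) := by
  intro n hev hn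
  obtain ⟨k, hk⟩ := hev
  obtain ⟨m, hm⟩ : ∃ m, n = 2 * m + 2 := ⟨k - 1, by omega⟩
  have hm0 : 0 < m := by omega
  refine ⟨poly (1 / 1000) m, ?_, ?_⟩
  · rw [hm]
    exact poly_isNGon (by norm_num) (by norm_num) hm0
  · refine (J_poly (by norm_num) (by norm_num) hm0).trans_lt (lt_of_lt_of_le ?_ (J_regular (by omega)))
    have h := numeric hn
    have h0 : 0 ≤ 8 * cos (π / 8) * (√2 + 1 / 1000) / (π / 2 + √2) := by
      have : 0 < cos (π / 8) := cos_pos_of_mem_Ioo ⟨by linarith [pi_pos], by linarith [pi_pos]⟩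
      positivity
    exact (ENNReal.ofReal_lt_ofReal_iff (h0.trans_lt h)).2 h

end Pool.Agent.Results.MP_4eea03_an.RegularNotOptimal
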